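import Mathlib
import Pool.Agent.Y303.SK.XDefs
import Pool.Agent.Y427.SK.Dens

/-! The cutoff commutes with the rotations about the third axis. -/

open Set Filter Topology MeasureTheory Metric

set_option autoImplicit false

namespace Pool.Agent.Y784.SKX

open Pool.Agent.Y5 (E3)
open Pool.Agent.Y303.SK
open Pool.Agent.Y427.SK

/-! ### Rotations -/

lemma rtz_0 (θ : ℝ) (x : E3) : rtz θ x 0 = Real.cos θ * x 0 - Real.sin θ * x 1 := rfl
lemma rtz_1 (θ : ℝ) (x : E3) : rtz θ x 1 = Real.sin θ * x 0 + Real.cos θ * x 1 := rfl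
lemma rtz_2 (θ : ℝ) (x : E3) : rtz θ x 2 = x 2 := rfl

/-- The rotation as a continuous linear map. -/
noncomputable def rtL (θ : ℝ) : E3 →L[ℝ] E3 :=
  LinearMap.toContinuousLinearMap
    { toFun := rtz θ
      map_add' := fun x y => by ext i; fin_cases i <;> simp [rtz] <;> ring
      map_smul' := fun r x => by ext i; fin_cases i <;> simp [rtz] <;> ring }

lemma rtL_apply (θ : ℝ) (x : E3) : rtL θ x = rtz θ x := rfl

lemma inner_eq (x y : E3) : (inner ℝ x y : ℝ) = x 0 * y 0 + x 1 * y 1 + x 2 * y 2 := by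
  rw [PiLp.inner_apply, Fin.sum_univ_three]
  simp [mul_comm]

lemma inner_rtz (θ : ℝ) (x y : E3) : (inner ℝ (rtz θ x) (rtz θ y) : ℝ) = inner ℝ x y := by
  rw [inner_eq, inner_eq, rtz_0, rtz_1, rtz_2, rtz_0, rtz_1, rtz_2]
  linear_combination (x 0 * y 0 + x 1 * y 1) * Real.sin_sq_add_cos_sq θ

lemma norm_rtz (θ : ℝ) (x : E3) : ‖rtz θ x‖ = ‖x‖ := by
  have h := inner_rtz θ x x
  rw [real_inner_self_eq_norm_sq, real_inner_self_eq_norm_sq] at h
  exact (sq_eq_sq₀ (norm_nonneg _) (norm_nonneg _)).1 h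

lemma rtz_smul (θ : ℝ) (c : ℝ) (x : E3) : rtz θ (c • x) = c • rtz θ x := (rtL θ).map_smul c x
lemma rtz_add (θ : ℝ) (x y : E3) : rtz θ (x + y) = rtz θ x + rtz θ y := (rtL θ).map_add x y
lemma rtz_sub (θ : ℝ) (x y : E3) : rtz θ (x - y) = rtz θ x - rtz θ y := (rtL θ).map_sub x y

/-! ### Stability of the classes -/

lemma axi_add {v w : E3 → E3} (hv : Axi v) (hw : Axi w) : Axi (fun x => v x + w x) := by
  intro θ x
  show v (rtz θ x) + w (rtz θ x) = rtz θ (v x + w x)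
  rw [hv θ x, hw θ x, rtz_add]

lemma axi_smul {v : E3 → E3} (hv : Axi v) (c : ℝ) : Axi (fun x => c • v x) := by
  intro θ x
  show c • v (rtz θ x) = rtz θ (c • v x)
  rw [hv θ x, rtz_smul]

lemma pol_add {v w : E3 → E3} (hv : Pol v) (hw : Pol w) : Pol (fun x => v x + w x) := by
  refine ⟨axi_add hv.axi hw.axi, fun x => ?_⟩
  have h1 := hv.swirl x
  have h2 := hw.swirl x
  simp only [PiLp.add_apply]
  linear_combination h1 + h2

lemma pol_smul {v : E3 → E3} (hv : Pol v) (c : ℝ) : Pol (fun x => c • v x) := by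
  refine ⟨axi_smul hv.axi c, fun x => ?_⟩
  have h1 := hv.swirl x
  simp only [PiLp.smul_apply, smul_eq_mul]
  linear_combination c * h1

/-! ### The averaged field -/

lemma VV_cont {v : E3 → E3} (hv : Continuous v) (x : E3) :
    Continuous fun t : ℝ => t • v (0 + t • (x - 0)) := by fun_prop

lemma VV_axi {v : E3 → E3} (hv : Continuous v) (ha : Axi v) : Axi (VV 0 v) := by
  intro θ x
  unfold VV
  rw [← rtL_apply θ (∫ t in (0 : ℝ)..1, t • v (0 + t • (x - 0))),
    ← ContinuousLinearMap.intervalIntegral_comp_comm _ ((VV_cont hv x).intervalIntegrable _ _)]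
  congr 1
  funext t
  rw [rtL_apply, rtz_smul]
  have : (0 : E3) + t • (rtz θ x - 0) = rtz θ (0 + t • (x - 0)) := by
    rw [zero_add, sub_zero, zero_add, sub_zero, rtz_smul]
  rw [this, ha]

/-- the swirl as a linear form -/
noncomputable def swL (x : E3) : E3 →L[ℝ] ℝ :=
  x 0 • (EuclideanSpace.proj (1 : Fin 3) : E3 →L[ℝ] ℝ) -
    x 1 • (EuclideanSpace.proj (0 : Fin 3) : E3 →L[ℝ] ℝ)

lemma swL_apply (x y : E3) : swL x y = x 0 * y 1 - x 1 * y 0 := rfl

lemma VV_swirl {v : E3 → E3} (hv : Continuous v) (hp : Pol v) (x : E3) :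
    x 0 * VV 0 v x 1 - x 1 * VV 0 v x 0 = 0 := by
  rw [← swL_apply]
  unfold VV
  rw [← ContinuousLinearMap.intervalIntegral_comp_comm _ ((VV_cont hv x).intervalIntegrable _ _)]
  have h : ∀ t : ℝ, swL x (t • v (0 + t • (x - 0))) = 0 := by
    intro t
    have h1 := hp.swirl (t • x)
    rw [zero_add, sub_zero, swL_apply]
    simp only [PiLp.smul_apply, smul_eq_mul] at h1 ⊢
    linear_combination h1
  rw [intervalIntegral.integral_congr (g := fun _ => (0 : ℝ)) fun t _ => h t]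
  simp

lemma bb_axi {v : E3 → E3} (hv : Continuous v) (ha : Axi v) : Axi (bb 0 v) := by
  intro θ x
  unfold bb
  rw [VV_axi hv ha, sub_zero, sub_zero, norm_rtz, inner_rtz, rtz_sub, rtz_smul, rtz_smul]

lemma bb_swirl {v : E3 → E3} (hv : Continuous v) (hp : Pol v) (x : E3) :
    x 0 * bb 0 v x 1 - x 1 * bb 0 v x 0 = 0 := by
  have h := VV_swirl hv hp x
  unfold bb
  rw [sub_zero]
  simp only [PiLp.sub_apply, PiLp.smul_apply, smul_eq_mul]
  linear_combination ‖x‖ ^ 2 * h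

lemma Bd_axi {v : E3 → E3} (d : ℝ) (hv : Continuous v) (ha : Axi v) : Axi (Bd 0 d v) := by
  intro θ x
  unfold Bd
  rw [bb_axi hv ha, ha, sub_zero, sub_zero, norm_rtz, rtz_add, rtz_smul, rtz_smul]

lemma Bd_pol {v : E3 → E3} (d : ℝ) (hv : Continuous v) (hp : Pol v) : Pol (Bd 0 d v) := by
  refine ⟨Bd_axi d hv hp.axi, fun x => ?_⟩
  have h1 := bb_swirl hv hp x
  have h2 := hp.swirl x
  unfold Bd
  simp only [PiLp.add_apply, PiLp.smul_apply, smul_eq_mul]
  linear_combination ph (‖x - 0‖ ^ 2 / d ^ 2) * h2 +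
    (2 / d ^ 2 * deriv ph (‖x - 0‖ ^ 2 / d ^ 2)) * h1

end Pool.Agent.Y784.SKX
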