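import Mathlib
import Pool.Agent.Y784.SKX.Rot

/-! Compactly supported axisymmetric fields are dense. -/

open Set Filter Topology MeasureTheory Metric

set_option autoImplicit false

namespace Pool.Agent.Y784.SKX

open Pool.Agent.Y5 (E3)
open Pool.Agent.Y303.SK
open Pool.Agent.Y427.SK

/-- `Bd_cs` without compact support. -/
lemma Bd_cs' {v : E3 → E3} {p : E3} {d : ℝ} (hd : 0 < d) (hv : ContDiff ℝ (⊤ : ℕ∞) v)
    (hdv : ∀ x, dvg v x = 0) : CS univ (Bd p d v) := by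
  have hN : ContDiff ℝ (⊤ : ℕ∞) (fun y : E3 => ‖y - p‖ ^ 2 / d ^ 2) :=
    ((pos_smooth p).norm_sq ℝ).div_const _
  have sf : ContDiff ℝ (⊤ : ℕ∞) (fun x : E3 => ph (‖x - p‖ ^ 2 / d ^ 2)) := ph_smooth.comp hN
  have sG : ContDiff ℝ (⊤ : ℕ∞) (fun s : ℝ => 2 / d ^ 2 * deriv ph s) :=
    contDiff_const.mul dph_smooth
  have sg : ContDiff ℝ (⊤ : ℕ∞) (fun x : E3 => 2 / d ^ 2 * deriv ph (‖x - p‖ ^ 2 / d ^ 2)) :=
    sG.comp hN
  have hsupp : Function.support (Bd p d v) ⊆ closedBall p d := by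
    intro x hx
    by_contra h
    rw [mem_closedBall, dist_eq_norm, not_le] at h
    refine hx ?_
    have h1 : 1 < ‖x - p‖ ^ 2 / d ^ 2 := by
      rw [one_lt_div (by positivity)]
      gcongr
    unfold Bd
    rw [ph_zero h1.le, dph_zero2 h1]
    simp
  refine ⟨(sf.smul hv).add (sg.smul (bb_smooth p hv)), ?_, subset_univ _, ?_⟩
  · exact HasCompactSupport.of_support_subset_isCompact (isCompact_closedBall p d) hsupp
  · intro x
    have d1 : DifferentiableAt ℝ (fun x : E3 => ph (‖x - p‖ ^ 2 / d ^ 2)) x :=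
      sf.differentiable (by simp) x
    have d2 : DifferentiableAt ℝ (fun x : E3 => 2 / d ^ 2 * deriv ph (‖x - p‖ ^ 2 / d ^ 2)) x :=
      sg.differentiable (by simp) x
    have d3 : DifferentiableAt ℝ v x := hv.differentiable (by simp) x
    have d4 : DifferentiableAt ℝ (bb p v) x := (bb_smooth p hv).differentiable (by simp) x
    have h1 : Bd p d v = fun x => ph (‖x - p‖ ^ 2 / d ^ 2) • v x +
      (2 / d ^ 2 * deriv ph (‖x - p‖ ^ 2 / d ^ 2)) • bb p v x := rfl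
    have d5 : DifferentiableAt ℝ (fun x : E3 => ph (‖x - p‖ ^ 2 / d ^ 2) • v x) x := d1.smul d3
    have d6 : DifferentiableAt ℝ (fun x : E3 =>
      (2 / d ^ 2 * deriv ph (‖x - p‖ ^ 2 / d ^ 2)) • bb p v x) x := d2.smul d4
    rw [h1, dvg_add d5 d6, dvg_smul d1 d3, dvg_smul d2 d4, hdv x,
      bb_dvg p hv hdv, fderiv_comp_nsq (ph_smooth.differentiable (by simp)),
      fderiv_comp_nsq (G := fun s => 2 / d ^ 2 * deriv ph s) (sG.differentiable (by simp)),
      bb_orth]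
    ring

/-! ### The averaged field is square integrable -/

lemma VV_subst {v : E3 → E3} (hv : Continuous v) (x : E3) :
    VV 0 v x = ∫ s in (0 : ℝ)..1, (2 * s ^ 3) • v (s ^ 2 • x) := by
  have h := intervalIntegral.integral_comp_smul_deriv (a := 0) (b := 1)
    (f := fun s : ℝ => s ^ 2) (f' := fun s => 2 * s) (g := fun t : ℝ => t • v (t • x))
    (fun s _ => by simpa using hasDerivAt_pow 2 s) (by fun_prop) (by fun_prop)
  simp only [ne_eq, OfNat.ofNat_ne_zero, not_false_eq_true, zero_pow, one_pow] at h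
  have h1 : VV 0 v x = ∫ t in (0 : ℝ)..1, t • v (t • x) := by
    unfold VV
    simp
  rw [h1, ← h]
  refine intervalIntegral.integral_congr fun s _ => ?_
  simp only [Function.comp_apply, smul_smul]
  congr 1
  ring

lemma sq_avg {g : ℝ → ℝ} (hg : Continuous g) :
    (∫ s in (0 : ℝ)..1, g s) ^ 2 ≤ ∫ s in (0 : ℝ)..1, g s ^ 2 := by
  set m := ∫ s in (0 : ℝ)..1, g s with hm
  have h1 : 0 ≤ ∫ s in (0 : ℝ)..1, (g s - m) ^ 2 :=
    intervalIntegral.integral_nonneg zero_le_one fun s _ => sq_nonneg _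
  have h2 : ∫ s in (0 : ℝ)..1, (g s - m) ^ 2 =
      (∫ s in (0 : ℝ)..1, g s ^ 2) - 2 * m * m + m ^ 2 := by
    have e : ∀ s, (g s - m) ^ 2 = g s ^ 2 - 2 * m * g s + m ^ 2 := fun s => by ring
    simp_rw [e]
    have i1 : IntervalIntegrable (fun s => g s ^ 2) volume 0 1 :=
      (hg.pow 2).intervalIntegrable _ _
    have i2 : IntervalIntegrable (fun s => 2 * m * g s) volume 0 1 :=
      (continuous_const.mul hg).intervalIntegrable _ _
    have i3 : IntervalIntegrable (fun _ : ℝ => m ^ 2) volume 0 1 :=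
      continuous_const.intervalIntegrable _ _
    rw [intervalIntegral.integral_add (i1.sub i2) i3, intervalIntegral.integral_sub i1 i2,
      intervalIntegral.integral_const_mul, ← hm]
    simp
  nlinarith

lemma VV_sq {v : E3 → E3} (hv : Continuous v) (x : E3) :
    ‖VV 0 v x‖ ^ 2 ≤ ∫ s in Ioc (0 : ℝ) 1, 4 * s ^ 6 * ‖v (s ^ 2 • x)‖ ^ 2 := by
  rw [VV_subst hv, ← intervalIntegral.integral_of_le zero_le_one]
  have hc : Continuous fun s : ℝ => ‖(2 * s ^ 3) • v (s ^ 2 • x)‖ := by fun_prop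
  calc ‖∫ s in (0 : ℝ)..1, (2 * s ^ 3) • v (s ^ 2 • x)‖ ^ 2 ≤
      (∫ s in (0 : ℝ)..1, ‖(2 * s ^ 3) • v (s ^ 2 • x)‖) ^ 2 := by
        refine pow_le_pow_left₀ (norm_nonneg _) ?_ 2
        exact intervalIntegral.norm_integral_le_integral_norm zero_le_one
    _ ≤ ∫ s in (0 : ℝ)..1, ‖(2 * s ^ 3) • v (s ^ 2 • x)‖ ^ 2 := sq_avg hc
    _ = ∫ s in (0 : ℝ)..1, 4 * s ^ 6 * ‖v (s ^ 2 • x)‖ ^ 2 := by
        refine intervalIntegral.integral_congr fun s _ => ?_
        simp only [norm_smul, mul_pow, Real.norm_eq_abs, sq_abs]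
        ring

lemma VV_int {v : E3 → E3} (hv : Continuous v) (hi : Integrable (fun x => ‖v x‖ ^ 2) volume) :
    Integrable (fun x => ‖VV 0 v x‖ ^ 2) volume := by
  have hcont : Continuous fun q : E3 × ℝ => 4 * q.2 ^ 6 * ‖v (q.2 ^ 2 • q.1)‖ ^ 2 := by fun_prop
  have h1 : Integrable (fun q : E3 × ℝ => 4 * q.2 ^ 6 * ‖v (q.2 ^ 2 • q.1)‖ ^ 2)
      (volume.prod (volume.restrict (Ioc (0 : ℝ) 1))) := by
    rw [integrable_prod_iff' hcont.aestronglyMeasurable]
    have hs : ∀ s : ℝ, 0 < s → Integrable (fun x : E3 => 4 * s ^ 6 * ‖v (s ^ 2 • x)‖ ^ 2)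
        volume := by
      intro s hs
      exact (hi.comp_smul (R := s ^ 2) (by positivity)).const_mul _
    constructor
    · filter_upwards [ae_restrict_mem measurableSet_Ioc] with s hs'
      exact hs s hs'.1
    · have hconst : Integrable (fun _ : ℝ => 4 * ∫ x : E3, ‖v x‖ ^ 2)
          (volume.restrict (Ioc (0 : ℝ) 1)) := integrable_const _
      refine hconst.congr ?_
      filter_upwards [ae_restrict_mem measurableSet_Ioc] with s hs'
      have hs0 : 0 < s := hs'.1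
      have e1 : ∀ x : E3, ‖4 * s ^ 6 * ‖v (s ^ 2 • x)‖ ^ 2‖ = 4 * s ^ 6 * ‖v (s ^ 2 • x)‖ ^ 2 := by
        intro x
        rw [Real.norm_eq_abs, abs_of_nonneg (by positivity)]
      simp_rw [e1]
      rw [integral_const_mul]
      have e2 := Measure.integral_comp_smul (volume : Measure E3) (fun x => ‖v x‖ ^ 2) (s ^ 2)
      rw [e2]
      have e3 : Module.finrank ℝ E3 = 3 := by simp
      rw [e3, smul_eq_mul, abs_of_pos (by positivity)]
      field_simp
  have h2 := h1.integral_prod_left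
  refine h2.mono' ?_ ?_
  · have : Continuous (VV 0 v) := by
      have h3 : Continuous fun q : E3 × ℝ => q.2 • v (0 + q.2 • (q.1 - 0)) := by fun_prop
      exact intervalIntegral.continuous_parametric_intervalIntegral_of_continuous' h3 0 1
    exact (this.norm.pow 2).aestronglyMeasurable
  · refine Eventually.of_forall fun x => ?_
    rw [Real.norm_eq_abs, abs_of_nonneg (by positivity)]
    exact VV_sq hv x

/-! ### The difference -/

lemma diff_bd {v : E3 → E3} {R C : ℝ} (hR : 0 < R) (hC : ∀ s, |deriv ph s| ≤ C) (x : E3) :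
    ‖v x - Bd 0 R v x‖ ^ 2 ≤ 2 * ‖v x‖ ^ 2 + 32 * C ^ 2 * ‖VV 0 v x‖ ^ 2 := by
  have hC0 : 0 ≤ C := (abs_nonneg _).trans (hC 0)
  have h1 : ‖v x - Bd 0 R v x‖ ≤ ‖v x‖ + 4 * C * ‖VV 0 v x‖ := by
    have e : v x - Bd 0 R v x = (1 - ph (‖x - 0‖ ^ 2 / R ^ 2)) • v x -
        (2 / R ^ 2 * deriv ph (‖x - 0‖ ^ 2 / R ^ 2)) • bb 0 v x := by
      unfold Bd
      rw [sub_smul, one_smul]
      abel
    rw [e]
    refine (norm_sub_le _ _).trans ?_
    rw [norm_smul, norm_smul]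
    have a1 : ‖1 - ph (‖x - 0‖ ^ 2 / R ^ 2)‖ ≤ 1 := by
      unfold ph
      have b1 := Real.smoothTransition.nonneg (2 - 2 * (‖x - 0‖ ^ 2 / R ^ 2))
      have b2 := Real.smoothTransition.le_one (2 - 2 * (‖x - 0‖ ^ 2 / R ^ 2))
      rw [Real.norm_eq_abs, abs_of_nonneg (by linarith)]
      linarith
    have a2 : ‖2 / R ^ 2 * deriv ph (‖x - 0‖ ^ 2 / R ^ 2)‖ * ‖bb 0 v x‖ ≤
        4 * C * ‖VV 0 v x‖ := by
      by_cases hx : ‖x‖ ≤ R
      · have b1 : ‖bb 0 v x‖ ≤ 2 * R ^ 2 * ‖VV 0 v x‖ := by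
          unfold bb
          rw [sub_zero]
          refine (norm_sub_le _ _).trans ?_
          rw [norm_smul, norm_smul]
          have c1 : ‖(‖x‖ ^ 2 : ℝ)‖ ≤ R ^ 2 := by
            rw [Real.norm_eq_abs, abs_of_nonneg (by positivity)]
            gcongr
          have c2 : ‖(inner ℝ x (VV 0 v x) : ℝ)‖ ≤ R * ‖VV 0 v x‖ := by
            refine (norm_inner_le_norm _ _).trans ?_
            gcongr
          calc ‖(‖x‖ ^ 2 : ℝ)‖ * ‖VV 0 v x‖ + ‖(inner ℝ x (VV 0 v x) : ℝ)‖ * ‖x‖ ≤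
              R ^ 2 * ‖VV 0 v x‖ + R * ‖VV 0 v x‖ * R := by gcongr
            _ = 2 * R ^ 2 * ‖VV 0 v x‖ := by ring
        have b2 : ‖2 / R ^ 2 * deriv ph (‖x - 0‖ ^ 2 / R ^ 2)‖ ≤ 2 / R ^ 2 * C := by
          rw [norm_mul, Real.norm_eq_abs, Real.norm_eq_abs, abs_of_pos (by positivity)]
          gcongr
          exact hC _
        calc ‖2 / R ^ 2 * deriv ph (‖x - 0‖ ^ 2 / R ^ 2)‖ * ‖bb 0 v x‖ ≤
            2 / R ^ 2 * C * (2 * R ^ 2 * ‖VV 0 v x‖) := by gcongr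
          _ = 4 * C * ‖VV 0 v x‖ := by field_simp; ring
      · have b1 : 1 < ‖x - 0‖ ^ 2 / R ^ 2 := by
          rw [sub_zero, one_lt_div (by positivity)]
          rw [not_le] at hx
          gcongr
        rw [dph_zero2 b1]
        simp only [mul_zero, norm_zero, zero_mul]
        positivity
    calc ‖1 - ph (‖x - 0‖ ^ 2 / R ^ 2)‖ * ‖v x‖ +
          ‖2 / R ^ 2 * deriv ph (‖x - 0‖ ^ 2 / R ^ 2)‖ * ‖bb 0 v x‖ ≤
        1 * ‖v x‖ + 4 * C * ‖VV 0 v x‖ := by gcongr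
      _ = ‖v x‖ + 4 * C * ‖VV 0 v x‖ := by rw [one_mul]
  calc ‖v x - Bd 0 R v x‖ ^ 2 ≤ (‖v x‖ + 4 * C * ‖VV 0 v x‖) ^ 2 :=
        pow_le_pow_left₀ (norm_nonneg _) h1 2
    _ ≤ 2 * ‖v x‖ ^ 2 + 32 * C ^ 2 * ‖VV 0 v x‖ ^ 2 := by
        nlinarith [sq_nonneg (‖v x‖ - 4 * C * ‖VV 0 v x‖)]

lemma Bd_eq {v : E3 → E3} {R : ℝ} (hR : 0 < R) {x : E3} (hx : 2 * ‖x‖ < R) :
    Bd 0 R v x = v x := by
  have h1 : ‖x - 0‖ ^ 2 / R ^ 2 < 1 / 2 := by
    rw [sub_zero, div_lt_iff₀ (by positivity)]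
    nlinarith [norm_nonneg x]
  unfold Bd
  rw [ph_one h1.le, dph_zero1 h1]
  simp

theorem t_DENSR : S_DENSR := by
  intro v hv ha hdv hi ε hε
  obtain ⟨C, hC0, hC⟩ := dph_bdd
  have hW := VV_int hv.continuous hi
  have hb : Integrable (fun x => 2 * ‖v x‖ ^ 2 + 32 * C ^ 2 * ‖VV 0 v x‖ ^ 2) volume :=
    (hi.const_mul 2).add (hW.const_mul _)
  have hcs : ∀ n : ℕ, CS univ (Bd 0 ((n : ℝ) + 1) v) := fun n =>
    Bd_cs' (by positivity) hv hdv
  have hlim : Tendsto (fun n : ℕ => ∫ x, ‖v x - Bd 0 ((n : ℝ) + 1) v x‖ ^ 2) atTop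
      (𝓝 (∫ _ : E3, (0 : ℝ))) := by
    refine tendsto_integral_of_dominated_convergence _ (fun n => ?_) hb (fun n => ?_) ?_
    · exact ((hv.continuous.sub (hcs n).smooth.continuous).norm.pow 2).aestronglyMeasurable
    · refine Eventually.of_forall fun x => ?_
      rw [Real.norm_eq_abs, abs_of_nonneg (by positivity)]
      exact diff_bd (by positivity) hC x
    · refine Eventually.of_forall fun x => ?_
      refine tendsto_const_nhds.congr' ?_
      obtain ⟨N, hN⟩ := exists_nat_gt (2 * ‖x‖)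
      filter_upwards [eventually_ge_atTop N] with n hn
      have : (N : ℝ) ≤ n := by exact_mod_cast hn
      rw [Bd_eq (by positivity) (by linarith)]
      simp
  rw [integral_zero] at hlim
  obtain ⟨n, hn⟩ := (hlim.eventually (gt_mem_nhds hε)).exists
  exact ⟨Bd 0 ((n : ℝ) + 1) v, hcs n, Bd_axi _ hv.continuous ha, hn⟩

end Pool.Agent.Y784.SKX
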