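import Mathlib
import Pool.Agent.Y784.SKX.Rot

/-! Swirl-free fields which vanish near the origin are dense. -/

open Set Filter Topology MeasureTheory Metric

set_option autoImplicit false

namespace Pool.Agent.Y784.SKX

open Pool.Agent.Y5 (E3)
open Pool.Agent.Y303.SK
open Pool.Agent.Y427.SK

/-- The cutoff near a point (from the proof of `Pool.Agent.Y427.SK.t_DENS`). -/
lemma cut_small {v : E3 → E3} (p : E3) (hv : CS univ v) {ε : ℝ} (hε : 0 < ε) :
    ∃ d : ℝ, 0 < d ∧ CS univ (Bd p d v) ∧ (∀ x ∈ ball p (d / 2), Bd p d v x = v x) ∧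
      ∫ x, ‖Bd p d v x‖ ^ 2 < ε := by
  obtain ⟨C, hC0, hC⟩ := dph_bdd
  have hN := fun x => le_nk0 hv x
  set N := nk 0 v with hNd
  have hN0 : 0 ≤ N := nk_nonneg 0 v
  set c : ℝ := (volume (ball (0 : E3) 1)).toReal with hc
  have hc0 : 0 ≤ c := ENNReal.toReal_nonneg
  set K : ℝ := (N * (1 + 4 * C)) ^ 2 * c with hK
  have hK0 : 0 ≤ K := by positivity
  obtain ⟨d, hd, hd1, hdε⟩ : ∃ d : ℝ, 0 < d ∧ d ≤ 1 ∧ K * d < ε := by
    refine ⟨min 1 (ε / (2 * (K + 1))), by positivity, ?_, ?_⟩
    · exact min_le_left _ _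
    · calc K * min 1 (ε / (2 * (K + 1))) ≤ K * (ε / (2 * (K + 1))) := by
            gcongr; exact min_le_right _ _
        _ < ε := by
            rw [mul_div_assoc', div_lt_iff₀ (by positivity)]
            nlinarith
  have hB := Bd_cs hd hv (subset_univ (closedBall p d))
  refine ⟨d, hd, hB, ?_, ?_⟩
  · intro x hx
    rw [mem_ball, dist_eq_norm] at hx
    have h1 : ‖x - p‖ ^ 2 / d ^ 2 < 1 / 2 := by
      rw [div_lt_iff₀ (by positivity)]
      have : ‖x - p‖ ^ 2 < (d / 2) ^ 2 := by gcongr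
      nlinarith [sq_nonneg d]
    unfold Bd
    rw [ph_one h1.le, dph_zero1 h1]
    simp
  · have h2 : ∫ x, ‖Bd p d v x‖ ^ 2 = ∫ x in closedBall p d, ‖Bd p d v x‖ ^ 2 := by
      rw [setIntegral_eq_integral_of_forall_compl_eq_zero]
      intro x hx
      have h3 : 1 < ‖x - p‖ ^ 2 / d ^ 2 := by
        rw [mem_closedBall, dist_eq_norm, not_le] at hx
        rw [one_lt_div (by positivity)]
        gcongr
      unfold Bd
      rw [ph_zero h3.le, dph_zero2 h3]
      simp
    rw [h2]
    have hvol : (volume (closedBall p d)).toReal = d ^ 3 * c := by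
      rw [Measure.addHaar_closedBall volume p hd.le, ENNReal.toReal_mul,
        ENNReal.toReal_ofReal (by positivity)]
      simp [hc]
    have hfin : volume (closedBall p d) < ⊤ := measure_closedBall_lt_top
    calc ∫ x in closedBall p d, ‖Bd p d v x‖ ^ 2 ≤
        ∫ _ in closedBall p d, (N * (1 + 4 * C)) ^ 2 := by
          refine integral_mono_of_nonneg (Eventually.of_forall fun x => sq_nonneg _)
            (integrableOn_const (hs := hfin.ne)) ?_
          filter_upwards [ae_restrict_mem measurableSet_closedBall] with x hx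
          rw [mem_closedBall, dist_eq_norm] at hx
          exact pow_le_pow_left₀ (norm_nonneg _) (Bd_bound hd hN hC hx) 2
      _ = (volume (closedBall p d)).toReal * (N * (1 + 4 * C)) ^ 2 := by
          rw [setIntegral_const, smul_eq_mul]; rfl
      _ = K * d * d ^ 2 := by rw [hvol, hK]; ring
      _ ≤ K * d * 1 := by
          gcongr
          exact pow_le_one₀ hd.le hd1
      _ < ε := by rw [mul_one]; exact hdε

theorem t_DENSX : S_DENSX := by
  intro v hv hp ε hε
  obtain ⟨d, hd, hB, hz, hI⟩ := cut_small 0 hv hε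
  refine ⟨fun x => v x + (-1 : ℝ) • Bd 0 d v x, cs_add hv (cs_smul hB (-1)),
    pol_add hp (pol_smul (Bd_pol d (cs_cont hv) hp) (-1)), ⟨d / 2, by positivity, fun x hx => ?_⟩,
    ?_⟩
  · simp [hz x hx]
  · have h1 : ∀ x, v x - (v x + (-1 : ℝ) • Bd 0 d v x) = Bd 0 d v x := by
      intro x
      rw [neg_one_smul]; abel
    simp_rw [h1]
    exact hI

end Pool.Agent.Y784.SKX
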